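import Mathlib

/-!
# MP_13ec72_co: a 2-design whose spectrum of minimal defining set sizes has a hole

The design is the simple `2-(7,3,4)` design `D` formed by the 28 triples of a 7-point set that are
not lines of a fixed Fano plane.  Its spectrum contains `10` and `13` but not `12`
(in fact the spectrum is `{7, 8, 9, 10, 13}`).

The `2-(7,3,4)` designs are the complements of the 30 Fano planes.  A set `S` of blocks of `D` is
defining iff it meets each of the 29 other Fano planes, and a verified exhaustive search shows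
that no minimal such set has 12 blocks.
-/

namespace Pool.Agent.Results.MP_13ec72_co.SpectrumHole

open Finset

/-- `B` is (the block set of) a simple `t-(v,k,l)` design on the point set `Fin v`. -/
def IsDesign (t v k l : ℕ) (B : Finset (Finset (Fin v))) : Prop :=
  (∀ b ∈ B, b.card = k) ∧
    ∀ T : Finset (Fin v), T.card = t → (B.filter (fun b => T ⊆ b)).card = l

/-- `S` is a defining set of the `t-(v,k,l)` design `B`: `S ⊆ B`, and `B` is the only
`t-(v,k,l)` design on the same point set containing `S`. -/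
def IsDefining (t v k l : ℕ) (B S : Finset (Finset (Fin v))) : Prop :=
  S ⊆ B ∧ ∀ B', IsDesign t v k l B' → S ⊆ B' → B' = B

/-- `S` is a minimal defining set of `B`: no proper subset of `S` is a defining set of `B`. -/
def IsMinDefining (t v k l : ℕ) (B S : Finset (Finset (Fin v))) : Prop :=
  IsDefining t v k l B S ∧ ∀ S', S' ⊂ S → ¬ IsDefining t v k l B S'

/-- The spectrum of `B`: the set of sizes of its minimal defining sets. -/
def Spec (t v k l : ℕ) (B : Finset (Finset (Fin v))) : Set ℕ :=
  {m | ∃ S, IsMinDefining t v k l B S ∧ S.card = m}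

/-! ### The data -/

/-- The 35 triples of `Fin 7`; the last seven are the lines of a Fano plane. -/
def trl : List (Finset (Fin 7)) :=
  [{2, 4, 5}, {0, 4, 6}, {0, 2, 3}, {0, 1, 5}, {2, 4, 6}, {3, 5, 6}, {0, 1, 6}, {0, 2, 4}, {2, 3,
   5}, {1, 2, 3}, {0, 2, 5}, {0, 1, 4}, {0, 3, 5}, {1, 3, 6}, {1, 2, 5}, {3, 4, 5}, {0, 3, 4},
   {1, 4, 5}, {1, 3, 4}, {4, 5, 6}, {0, 5, 6}, {0, 2, 6}, {1, 2, 6}, {0, 1, 3}, {2, 3, 6}, {1, 5,
   6}, {3, 4, 6}, {1, 2, 4}, {0, 1, 2}, {0, 3, 6}, {0, 4, 5}, {1, 3, 5}, {1, 4, 6}, {2, 3, 4},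
   {2, 5, 6}]

/-- The `i`-th triple. -/
def tr (i : ℕ) : Finset (Fin 7) := trl.getD i ∅

/-- For each pair of points, the indices of the five triples containing it. -/
def P : List (List ℕ) :=
  [[3, 6, 11, 23, 28], [2, 7, 10, 21, 28], [2, 12, 16, 23, 29], [1, 7, 11, 16, 30], [3, 10, 12,
   20, 30], [1, 6, 20, 21, 29], [9, 14, 22, 27, 28], [9, 13, 18, 23, 31], [11, 17, 18, 27, 32],
   [3, 14, 17, 25, 31], [6, 13, 22, 25, 32], [2, 8, 9, 24, 33], [0, 4, 7, 27, 33], [0, 8, 10, 14,
   34], [4, 21, 22, 24, 34], [15, 16, 18, 26, 33], [5, 8, 12, 15, 31], [5, 13, 24, 26, 29], [0,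
   15, 17, 19, 30], [1, 4, 19, 26, 32], [5, 19, 20, 25, 34]]

/-- `conf[i]`: mask of the triples meeting the `i`-th triple in exactly two points. -/
def conf : List ℕ := [26978469264, 5976426704, 9422575488, 3532807232, 30289690755, 19983282432,
   5149566986, 10068495383, 27934119461, 11169718532, 18525213069, 5780209866, 3767633196,
   7109608032, 19767887625, 11879256353, 10276345990, 7684802569, 15242340864, 22650454067,
   18826663018, 18007196886, 21929943632, 2953132620, 26380084020, 23628243048, 13439442994,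
   13157943953, 148917964, 95498342, 1809547, 42398504, 240003154, 218465173, 58213681]

/-- The 30 Fano planes, as masks. -/
def sols : List ℕ :=
  [34091302912, 4456495, 11279010816, 541852040, 1319108864, 17584320, 192971778, 269689104,
   4321230976, 8602649634, 1074020468, 198256, 80871808, 2299069504, 20602421316, 17314127886,
   13969145888, 4297130537, 570461712, 1107988, 136913160, 8592586752, 6728777729, 102767105,
   22011740808, 319033347, 2219837445, 1912865040, 26038382594, 17247113920]

/-- The Fano plane formed by the last seven triples. -/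
def M : ℕ := 34091302912

/-- The 29 other Fano planes, with the lines of `M` removed: masks and index lists. -/
def E : List (ℕ × List ℕ) :=
  [(245367040, [8, 21, 23, 25, 26, 27]),
   (26263680, [7, 14, 15, 20, 23, 24]),
   (10502176, [5, 14, 21, 23]),
   (33416, [3, 7, 9, 15]),
   (4981128, [3, 7, 8, 18, 19, 22]),
   (33816848, [4, 8, 18, 25]),
   (80871808, [7, 8, 17, 20, 22, 23, 26]),
   (136913160, [3, 8, 13, 16, 19, 21, 27]),
   (2163241, [0, 3, 5, 9, 16, 21]),
   (17584320, [6, 7, 12, 14, 18, 19, 24]),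
   (1253648, [4, 8, 13, 16, 17, 20]),
   (278644, [2, 4, 5, 6, 14, 18]),
   (2652160, [11, 12, 13, 14, 19, 21]),
   (1107988, [2, 4, 11, 13, 14, 15, 20]),
   (67244736, [6, 7, 9, 12, 17, 26]),
   (134258702, [1, 2, 3, 13, 15, 27]),
   (201326660, [2, 6, 26, 27]),
   (143362, [1, 12, 13, 17]),
   (4456495, [0, 1, 2, 3, 5, 18, 22]),
   (102767105, [0, 9, 11, 12, 21, 25, 26]),
   (50597891, [0, 1, 12, 18, 24, 25]),
   (4721664, [10, 11, 19, 22]),
   (192971778, [1, 10, 15, 23, 24, 25, 27]),
   (151585856, [6, 10, 16, 19, 24, 27]),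
   (33590800, [4, 9, 10, 11, 15, 25]),
   (17891329, [0, 16, 20, 24]),
   (12715042, [1, 5, 10, 17, 22, 23]),
   (198256, [4, 5, 6, 9, 10, 16, 17]),
   (72353797, [0, 2, 11, 20, 22, 26])]

theorem trl_length : trl.length = 35 := by decide

theorem tr_inj : ∀ i < 35, ∀ j < 35, tr i = tr j → i = j := by decide +kernel

theorem tr_card : ∀ i < 35, (tr i).card = 3 := by decide +kernel

theorem tr_surj : ∀ s : Finset (Fin 7), s.card = 3 → ∃ i < 35, tr i = s := by decide +kernel

theorem P_spec : ∀ T : Finset (Fin 7), T.card = 2 → ∃ L ∈ P, ∀ i < 35, (T ⊆ tr i ↔ i ∈ L) := by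
  decide +kernel

theorem P_spec' : ∀ L ∈ P, ∃ T : Finset (Fin 7), T.card = 2 ∧ ∀ i < 35, (T ⊆ tr i ↔ i ∈ L) := by
  decide +kernel

theorem P_nodup : ∀ L ∈ P, L.Nodup ∧ L.length = 5 ∧ ∀ i ∈ L, i < 35 := by decide +kernel

theorem P_all : ∀ i < 35, ∃ L ∈ P, i ∈ L := by decide +kernel

theorem conf_spec0 : ∀ i < 35, ∀ j < 35, ((conf.getD i 0).testBit j = false ∨
    (P.any (fun L => L.contains i && L.contains j) = true ∧ i ≠ j)) := by decide +kernel

theorem conf_spec : ∀ i < 35, ∀ j < 35, (conf.getD i 0).testBit j = true →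
    ∃ L ∈ P, i ∈ L ∧ j ∈ L ∧ i ≠ j := by
  intro i hi j hj h
  rcases conf_spec0 i hi j hj with h' | ⟨h', hne⟩
  · rw [h] at h'; exact absurd h' (by decide)
  · obtain ⟨L, hL, hLL⟩ := List.any_eq_true.1 h'
    rw [Bool.and_eq_true, List.contains_iff_mem, List.contains_iff_mem] at hLL
    exact ⟨L, hL, hLL.1, hLL.2, hne⟩

theorem conf_spec' : ∀ L ∈ P, ∀ i ∈ L, ∀ j ∈ L, i ≠ j → (conf.getD i 0).testBit j = true := by
  decide +kernel

theorem conf_lt : ∀ i < 35, conf.getD i 0 < 2 ^ 35 := by decide +kernel

/-! ### Designs and masks -/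

/-- The set of triples that are not in the mask `r`. -/
def des (r : ℕ) : Finset (Finset (Fin 7)) :=
  ((range 35).filter (fun i => r.testBit i = false)).image tr

theorem mem_des {r i : ℕ} (hi : i < 35) : tr i ∈ des r ↔ r.testBit i = false := by
  unfold des
  rw [mem_image]
  constructor
  · rintro ⟨j, hj, hji⟩
    rw [mem_filter, mem_range] at hj
    have := tr_inj j hj.1 i hi hji
    subst this
    exact hj.2
  · intro h
    exact ⟨i, mem_filter.2 ⟨mem_range.2 hi, h⟩, rfl⟩

theorem exists_of_mem_des {r : ℕ} {b : Finset (Fin 7)} (hb : b ∈ des r) :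
    ∃ i < 35, tr i = b ∧ r.testBit i = false := by
  unfold des at hb
  obtain ⟨i, hi, rfl⟩ := mem_image.1 hb
  rw [mem_filter, mem_range] at hi
  exact ⟨i, hi.1, rfl, hi.2⟩

/-- Counting blocks of a set of triples through a pair. -/
theorem count_pair {B : Finset (Finset (Fin 7))} (hB : ∀ b ∈ B, b.card = 3)
    {T : Finset (Fin 7)} {L : List ℕ} (hL : L ∈ P) (hT : ∀ i < 35, (T ⊆ tr i ↔ i ∈ L)) :
    (B.filter (fun b => T ⊆ b)).card = (L.toFinset.filter (fun i => tr i ∈ B)).card := by
  symm
  apply card_bij (fun i _ => tr i)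
  · intro i hi
    rw [mem_filter, List.mem_toFinset] at hi
    rw [mem_filter]
    exact ⟨hi.2, (hT i ((P_nodup L hL).2.2 i hi.1)).2 hi.1⟩
  · intro i hi j hj h
    rw [mem_filter, List.mem_toFinset] at hi hj
    exact tr_inj i ((P_nodup L hL).2.2 i hi.1) j ((P_nodup L hL).2.2 j hj.1) h
  · intro b hb
    rw [mem_filter] at hb
    obtain ⟨i, hi, rfl⟩ := tr_surj b (hB b hb.1)
    refine ⟨i, ?_, rfl⟩
    rw [mem_filter, List.mem_toFinset]
    exact ⟨(hT i hi).1 hb.2, hb.1⟩

theorem sols_four : ∀ r ∈ sols, ∀ L ∈ P,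
    (L.toFinset.filter (fun i => r.testBit i = false)).card = 4 := by decide +kernel

theorem des_isDesign {r : ℕ} (hr : r ∈ sols) : IsDesign 2 7 3 4 (des r) := by
  have h3 : ∀ b ∈ des r, b.card = 3 := by
    intro b hb
    obtain ⟨i, hi, rfl, -⟩ := exists_of_mem_des hb
    exact tr_card i hi
  refine ⟨h3, ?_⟩
  intro T hT
  obtain ⟨L, hL, hLT⟩ := P_spec T hT
  rw [count_pair h3 hL hLT, ← sols_four r hr L hL]
  congr 1
  apply filter_congr
  intro i hi
  rw [List.mem_toFinset] at hi
  exact mem_des ((P_nodup L hL).2.2 i hi)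

/-- Exhaustive search for the Fano planes. -/
def cs : List (List ℕ) → ℕ → List ℕ
  | [], m => [m]
  | L :: Ls, m =>
    if L.any (fun i => m.testBit i) then cs Ls m
    else L.flatMap (fun i => if (conf.getD i 0) &&& m = 0 then cs Ls (m ||| 2 ^ i) else [])

theorem cs_sound (C : ℕ → Prop) (hC2 : ∀ i < 35, ∀ j < 35, C i → C j →
    (conf.getD i 0).testBit j = false) (hC3 : ∀ i, C i → i < 35) :
    ∀ (Ls : List (List ℕ)) (m : ℕ), (∀ L ∈ Ls, ∃ i ∈ L, C i) →
      (∀ i, m.testBit i = true → C i) →
      ∃ r ∈ cs Ls m, (∀ i, r.testBit i = true → C i) ∧ (∀ i, m.testBit i = true →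
        r.testBit i = true) ∧ ∀ L ∈ Ls, ∃ i ∈ L, r.testBit i = true := by
  intro Ls
  induction Ls with
  | nil => intro m _ hm; exact ⟨m, by simp [cs], hm, fun _ h => h, by simp⟩
  | cons L Ls ih =>
    intro m h1 hm
    by_cases hany : L.any (fun i => m.testBit i) = true
    · obtain ⟨r, hr, hr1, hr2, hr3⟩ := ih m (fun L' h => h1 L' (List.mem_cons_of_mem _ h)) hm
      refine ⟨r, ?_, hr1, hr2, ?_⟩
      · rw [cs, if_pos hany]; exact hr
      · intro L' hL'
        rcases List.mem_cons.1 hL' with rfl | hL'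
        · obtain ⟨i, hi, him⟩ := List.any_eq_true.1 hany
          exact ⟨i, hi, hr2 i him⟩
        · exact hr3 L' hL'
    · obtain ⟨i, hiL, hiC⟩ := h1 L List.mem_cons_self
      have hconf : (conf.getD i 0) &&& m = 0 := by
        apply Nat.eq_of_testBit_eq
        intro j
        rw [Nat.testBit_and, Nat.zero_testBit]
        by_cases hj : m.testBit j = true
        · rw [hC2 i (hC3 i hiC) j (hC3 j (hm j hj)) hiC (hm j hj)]; rfl
        · rw [Bool.not_eq_true] at hj
          rw [hj, Bool.and_false]
      obtain ⟨r, hr, hr1, hr2, hr3⟩ := ih (m ||| 2 ^ i)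
        (fun L' h => h1 L' (List.mem_cons_of_mem _ h)) (by
          intro j hj
          rw [Nat.testBit_or, Bool.or_eq_true] at hj
          rcases hj with hj | hj
          · exact hm j hj
          · rw [Nat.testBit_two_pow, decide_eq_true_eq] at hj
            subst hj; exact hiC)
      refine ⟨r, ?_, hr1, ?_, ?_⟩
      · rw [cs, if_neg hany, List.mem_flatMap]
        exact ⟨i, hiL, by rw [if_pos hconf]; exact hr⟩
      · intro j hj
        apply hr2
        rw [Nat.testBit_or, hj, Bool.true_or]
      · intro L' hL'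
        rcases List.mem_cons.1 hL' with rfl | hL'
        · refine ⟨i, hiL, hr2 i ?_⟩
          rw [Nat.testBit_or, Nat.testBit_two_pow_self, Bool.or_true]
        · exact hr3 L' hL'

theorem cs_check : ∀ r ∈ cs P 0, r ∈ sols := by decide +kernel

/-- Every simple `2-(7,3,4)` design is the complement of one of the 30 Fano planes. -/
theorem eq_des_of_design {B : Finset (Finset (Fin 7))} (hB : IsDesign 2 7 3 4 B) :
    ∃ r ∈ sols, B = des r := by
  -- exactly one triple through each pair is missing
  have hone : ∀ L ∈ P, (L.toFinset.filter (fun i => tr i ∉ B)).card = 1 := by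
    intro L hL
    obtain ⟨T, hT, hTL⟩ := P_spec' L hL
    have h4 := hB.2 T hT
    rw [count_pair hB.1 hL hTL] at h4
    have h5 := card_filter_add_card_filter_not (s := L.toFinset) (fun i => tr i ∈ B)
    rw [List.toFinset_card_of_nodup (P_nodup L hL).1, (P_nodup L hL).2.1, h4] at h5
    omega
  obtain ⟨r, hr, hr1, -, hr3⟩ := cs_sound (fun i => i < 35 ∧ tr i ∉ B) (by
    intro i hi j hj hCi hCj
    by_contra hne
    rw [Bool.not_eq_false] at hne
    obtain ⟨L, hL, hiL, hjL, hij⟩ := conf_spec i hi j hj hne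
    obtain ⟨a, ha⟩ := card_eq_one.1 (hone L hL)
    have h1 : i ∈ L.toFinset.filter (fun i => tr i ∉ B) :=
      mem_filter.2 ⟨List.mem_toFinset.2 hiL, hCi.2⟩
    have h2 : j ∈ L.toFinset.filter (fun i => tr i ∉ B) :=
      mem_filter.2 ⟨List.mem_toFinset.2 hjL, hCj.2⟩
    rw [ha, mem_singleton] at h1 h2
    exact hij (h1.trans h2.symm)) (fun i h => h.1) P 0 (by
    intro L hL
    obtain ⟨a, ha⟩ := card_eq_one.1 (hone L hL)
    have h1 : a ∈ L.toFinset.filter (fun i => tr i ∉ B) := by rw [ha]; exact mem_singleton_self a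
    rw [mem_filter, List.mem_toFinset] at h1
    exact ⟨a, h1.1, (P_nodup L hL).2.2 a h1.1, h1.2⟩) (by simp)
  refine ⟨r, cs_check r hr, ?_⟩
  have key : ∀ i < 35, (tr i ∉ B ↔ r.testBit i = true) := by
    intro i hi
    constructor
    · intro hiB
      obtain ⟨L, hL, hiL⟩ := P_all i hi
      obtain ⟨j, hjL, hj⟩ := hr3 L hL
      obtain ⟨a, ha⟩ := card_eq_one.1 (hone L hL)
      have h1 : i ∈ L.toFinset.filter (fun i => tr i ∉ B) :=
        mem_filter.2 ⟨List.mem_toFinset.2 hiL, hiB⟩
      have h2 : j ∈ L.toFinset.filter (fun i => tr i ∉ B) :=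
        mem_filter.2 ⟨List.mem_toFinset.2 hjL, (hr1 j hj).2⟩
      rw [ha, mem_singleton] at h1 h2
      rw [h1, ← h2]; exact hj
    · intro h; exact (hr1 i h).2
  ext b
  constructor
  · intro hb
    obtain ⟨i, hi, rfl⟩ := tr_surj b (hB.1 b hb)
    rw [mem_des hi]
    by_contra h
    rw [Bool.not_eq_false] at h
    exact (key i hi).2 h hb
  · intro hb
    obtain ⟨i, hi, rfl, hri⟩ := exists_of_mem_des hb
    by_contra h
    rw [(key i hi).1 h] at hri
    exact absurd hri (by decide)

/-! ### The search for minimal transversals -/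

/-- Union of the elements of the mask `S` that have a private edge. -/
def acc (S : ℕ) : ℕ :=
  E.foldl (fun a e => if (e.1 &&& S) &&& ((e.1 &&& S) - 1) = 0 then a ||| (e.1 &&& S) else a) 0

/-- Edges not hit by `S`. -/
def unhit (S : ℕ) : List (ℕ × List ℕ) := E.filter (fun e => e.1 &&& S == 0)

/-- Branch over the elements of a list. -/
def br (f : ℕ → ℕ → Bool) : List ℕ → ℕ → ℕ → Bool
  | [], _, _ => true
  | i :: is, S, out =>
    if out.testBit i then br f is S out
    else f (S ||| 2 ^ i) out && br f is S (out ||| 2 ^ i)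

/-- The search; `true` certifies that no minimal transversal of size 12 extends the state. -/
def srch : ℕ → ℕ → ℕ → ℕ → Bool
  | 0, _, _, _ => false
  | n + 1, sz, S, out =>
    !(S &&& acc S == S) || Nat.blt (sz + (unhit S).length) 12 || Nat.blt 12 sz ||
      match unhit S with
      | [] => false
      | e :: _ => br (srch n (sz + 1)) e.2 S out

/-- `X` is a minimal transversal of `E`. -/
def Good (X : Finset ℕ) : Prop :=
  (∀ e ∈ E, ∃ i ∈ X, e.1.testBit i = true) ∧
    ∀ i ∈ X, ∃ e ∈ E, e.1.testBit i = true ∧ ∀ j ∈ X, e.1.testBit j = true → j = i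

theorem E_bits : ∀ e ∈ E, e.1 < 2 ^ 28 ∧ (∀ i < 28, (e.1.testBit i = true ↔ i ∈ e.2)) ∧
    ∀ i ∈ e.2, i < 28 := by decide +kernel

theorem E_bits' {e : ℕ × List ℕ} (he : e ∈ E) (i : ℕ) : e.1.testBit i = true ↔ i ∈ e.2 := by
  obtain ⟨h1, h2, h3⟩ := E_bits e he
  by_cases hi : i < 28
  · exact h2 i hi
  · constructor
    · intro h
      have : e.1 < 2 ^ i := h1.trans_le (Nat.pow_le_pow_right (by norm_num) (by omega))
      rw [Nat.testBit_lt_two_pow this] at h
      exact absurd h (by decide)
    · intro h; exact absurd (h3 i h) hi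

theorem foldl_acc (S : ℕ) (x : ℕ) : ∀ (l : List (ℕ × List ℕ)) (a : ℕ),
    (a.testBit x = true ∨ ∃ e ∈ l, e.1 &&& S = 2 ^ x) →
    (l.foldl (fun a e => if (e.1 &&& S) &&& ((e.1 &&& S) - 1) = 0 then a ||| (e.1 &&& S)
      else a) a).testBit x = true := by
  intro l
  induction l with
  | nil =>
    intro a h
    rcases h with h | ⟨e, he, -⟩
    · exact h
    · simp at he
  | cons e l ih =>
    intro a h
    rw [List.foldl_cons]
    apply ih
    rcases h with h | ⟨e', he', h'⟩
    · left
      split_ifs
      · rw [Nat.testBit_or, h, Bool.true_or]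
      · exact h
    · rcases List.mem_cons.1 he' with rfl | he'
      · left
        rw [h', Nat.and_two_pow_sub_one_eq_mod, Nat.mod_self, if_pos rfl, Nat.testBit_or,
          Nat.testBit_two_pow_self, Bool.or_true]
      · right; exact ⟨e', he', h'⟩

theorem br_sound (f : ℕ → ℕ → Bool) (X : Finset ℕ) (S : ℕ) :
    ∀ (l : List ℕ) (out : ℕ), (∀ i ∈ l, ∀ out, i ∈ X → f (S ||| 2 ^ i) out = true →
      (∀ j, out.testBit j = true → j ∉ X) → X.card ≠ 12) →
      br f l S out = true → (∀ j, out.testBit j = true → j ∉ X) →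
      (∃ i ∈ l, i ∈ X) → X.card ≠ 12 := by
  intro l
  induction l with
  | nil => intro out _ _ _ h; obtain ⟨i, hi, -⟩ := h; simp at hi
  | cons i l ih =>
    intro out hf h hout hex
    have hf' : ∀ i ∈ l, ∀ out, i ∈ X → f (S ||| 2 ^ i) out = true →
      (∀ j, out.testBit j = true → j ∉ X) → X.card ≠ 12 :=
      fun i hi => hf i (List.mem_cons_of_mem _ hi)
    rw [br] at h
    split_ifs at h with ho
    · apply ih out hf' h hout
      obtain ⟨j, hj, hjX⟩ := hex
      rcases List.mem_cons.1 hj with rfl | hj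
      · exact absurd hjX (hout _ ho)
      · exact ⟨j, hj, hjX⟩
    · rw [Bool.and_eq_true] at h
      by_cases hi : i ∈ X
      · exact hf i List.mem_cons_self out hi h.1 hout
      · apply ih (out ||| 2 ^ i) hf' h.2
        · intro j hj
          rw [Nat.testBit_or, Bool.or_eq_true] at hj
          rcases hj with hj | hj
          · exact hout j hj
          · rw [Nat.testBit_two_pow, decide_eq_true_eq] at hj
            subst hj; exact hi
        · obtain ⟨j, hj, hjX⟩ := hex
          rcases List.mem_cons.1 hj with rfl | hj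
          · exact absurd hjX hi
          · exact ⟨j, hj, hjX⟩

theorem srch_sound (X : Finset ℕ) (hX : Good X) : ∀ (n sz S out : ℕ), srch n sz S out = true →
    (∀ i, S.testBit i = true → i ∈ X) → (∀ i, out.testBit i = true → i ∉ X) →
    (X.filter (fun i => S.testBit i = true)).card = sz → X.card ≠ 12 := by
  intro n
  induction n with
  | zero => intro sz S out h; simp [srch] at h
  | succ n ih =>
    intro sz S out h hS hout hsz
    -- private edges of elements outside `S` are unhit
    have hpriv : ∀ x ∈ X, ∃ e ∈ E, e.1.testBit x = true ∧ ∀ j ∈ X, e.1.testBit j = true → j = x :=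
      hX.2
    have hmask : ∀ x ∈ X, ∀ e ∈ E, e.1.testBit x = true →
        (∀ j ∈ X, e.1.testBit j = true → j = x) →
        (e.1 &&& S = if S.testBit x = true then 2 ^ x else 0) := by
      intro x hx e he hex hej
      apply Nat.eq_of_testBit_eq
      intro j
      rw [Nat.testBit_and]
      split_ifs with hSx
      · rw [Nat.testBit_two_pow]
        by_cases hjx : x = j
        · subst hjx; rw [hex, hSx]; simp
        · rw [decide_eq_false hjx]
          by_contra hne
          rw [Bool.not_eq_false, Bool.and_eq_true] at hne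
          exact hjx (hej j (hS j hne.2) hne.1).symm
      · rw [Nat.zero_testBit]
        by_contra hne
        rw [Bool.not_eq_false, Bool.and_eq_true] at hne
        have := hej j (hS j hne.2) hne.1
        subst this
        exact hSx hne.2
    have hle : X.card ≤ sz + (unhit S).length := by
      rw [← card_filter_add_card_filter_not (s := X) (fun i => S.testBit i = true), hsz]
      apply Nat.add_le_add_left
      choose! g hg using hpriv
      have hcard := card_le_card_of_injOn (s := X.filter (fun i => ¬ S.testBit i = true))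
        (t := (unhit S).toFinset) g ?_ ?_
      · exact hcard.trans (List.toFinset_card_le _)
      · intro x hx
        rw [mem_coe, mem_filter] at hx
        rw [mem_coe, List.mem_toFinset, unhit, List.mem_filter]
        obtain ⟨h1, h2, h3⟩ := hg x hx.1
        refine ⟨h1, ?_⟩
        rw [hmask x hx.1 _ h1 h2 h3, if_neg hx.2]
        rfl
      · intro x hx y hy hxy
        rw [mem_coe, mem_filter] at hx hy
        obtain ⟨h1, h2, h3⟩ := hg x hx.1
        obtain ⟨h1', h2', h3'⟩ := hg y hy.1
        exact (h3 y hy.1 (by rw [hxy]; exact h2')).symm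
    have hge : sz ≤ X.card := by rw [← hsz]; exact card_filter_le _ _
    rw [srch] at h
    simp only [Bool.or_eq_true, Bool.not_eq_true', beq_eq_false_iff_ne, Nat.blt_eq] at h
    rcases h with ((h | h) | h) | h
    · exfalso
      apply h
      apply Nat.eq_of_testBit_eq
      intro x
      rw [Nat.testBit_and]
      by_cases hSx : S.testBit x = true
      · rw [hSx]
        obtain ⟨e, he, h1, h2⟩ := hpriv x (hS x hSx)
        have := hmask x (hS x hSx) e he h1 h2
        rw [if_pos hSx] at this
        have hacc : (acc S).testBit x = true := foldl_acc S x E 0 (Or.inr ⟨e, he, this⟩)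
        rw [hacc]; rfl
      · rw [Bool.not_eq_true] at hSx
        rw [hSx, Bool.false_and]
    · omega
    · omega
    · split at h
      · exact absurd h (by decide)
      · rename_i e l heq
        have heE : e ∈ E ∧ (e.1 &&& S == 0) = true := by
          have : e ∈ unhit S := by rw [heq]; exact List.mem_cons_self
          rw [unhit, List.mem_filter] at this
          exact this
        obtain ⟨i, hiX, hie⟩ := hX.1 e heE.1
        refine br_sound _ X S e.2 out ?_ h hout ⟨i, (E_bits' heE.1 i).1 hie, hiX⟩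
        intro j hje out' hjX hf hout'
        by_cases hSj : S.testBit j = true
        · exfalso
          have h0 : e.1 &&& S = 0 := by simpa using heE.2
          have h1 : (e.1 &&& S).testBit j = true := by
            rw [Nat.testBit_and, hSj, (E_bits' heE.1 j).2 hje]; rfl
          rw [h0, Nat.zero_testBit] at h1
          exact absurd h1 (by decide)
        · refine ih (sz + 1) (S ||| 2 ^ j) out' hf ?_ hout' ?_
          · intro k hk
            rw [Nat.testBit_or, Bool.or_eq_true] at hk
            rcases hk with hk | hk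
            · exact hS k hk
            · rw [Nat.testBit_two_pow, decide_eq_true_eq] at hk
              subst hk; exact hjX
          · rw [← hsz]
            have : X.filter (fun i => (S ||| 2 ^ j).testBit i = true) =
                insert j (X.filter (fun i => S.testBit i = true)) := by
              ext k
              simp only [mem_filter, mem_insert, Nat.testBit_or, Bool.or_eq_true,
                Nat.testBit_two_pow, decide_eq_true_eq]
              constructor
              · rintro ⟨h1, h2 | h2⟩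
                · exact Or.inr ⟨h1, h2⟩
                · exact Or.inl h2.symm
              · rintro (rfl | ⟨h1, h2⟩)
                · exact ⟨hjX, Or.inr rfl⟩
                · exact ⟨h1, Or.inl h2⟩
            rw [this, card_insert_of_notMem]
            rw [mem_filter]
            exact fun h => hSj h.2

theorem srch_true : srch 30 0 0 0 = true := by decide +kernel

theorem no_twelve (X : Finset ℕ) (hX : Good X) : X.card ≠ 12 := by
  refine srch_sound X hX 30 0 0 0 srch_true ?_ ?_ ?_
  · intro i hi; rw [Nat.zero_testBit] at hi; exact absurd hi (by decide)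
  · intro i hi; rw [Nat.zero_testBit] at hi; exact absurd hi (by decide)
  · rw [card_eq_zero, filter_eq_empty_iff]
    intro i _ hi; rw [Nat.zero_testBit] at hi; exact absurd hi (by decide)

/-! ### From designs to transversals -/

theorem M_mem : M ∈ sols := by decide +kernel

theorem sols_E : ∀ r ∈ sols, r = M ∨ ∃ e ∈ E, ∀ i < 35,
    (e.1.testBit i = true ↔ (r.testBit i = true ∧ M.testBit i = false)) := by decide +kernel

theorem E_sols : ∀ e ∈ E, ∃ r ∈ sols, r ≠ M ∧ ∀ i < 35,
    (e.1.testBit i = true ↔ (r.testBit i = true ∧ M.testBit i = false)) := by decide +kernel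

/-- The index set of a set of blocks. -/
def idx (S : Finset (Finset (Fin 7))) : Finset ℕ := (range 35).filter (fun i => tr i ∈ S)

theorem mem_idx {S : Finset (Finset (Fin 7))} {i : ℕ} : i ∈ idx S ↔ i < 35 ∧ tr i ∈ S := by
  rw [idx, mem_filter, mem_range]

theorem card_idx {S : Finset (Finset (Fin 7))} (hS : ∀ b ∈ S, b.card = 3) :
    (idx S).card = S.card := by
  apply card_bij (fun i _ => tr i)
  · intro i hi; exact (mem_idx.1 hi).2
  · intro i hi j hj h
    exact tr_inj i (mem_idx.1 hi).1 j (mem_idx.1 hj).1 h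
  · intro b hb
    obtain ⟨i, hi, rfl⟩ := tr_surj b (hS b hb)
    exact ⟨i, mem_idx.2 ⟨hi, hb⟩, rfl⟩

theorem subset_des {S : Finset (Finset (Fin 7))} {r : ℕ} (hS : ∀ b ∈ S, b.card = 3)
    (h : ∀ i ∈ idx S, r.testBit i = false) : S ⊆ des r := by
  intro b hb
  obtain ⟨i, hi, rfl⟩ := tr_surj b (hS b hb)
  exact (mem_des hi).2 (h i (mem_idx.2 ⟨hi, hb⟩))

theorem des_ne {r : ℕ} (hr : r ∈ sols) (hne : r ≠ M) : des r ≠ des M := by
  intro h
  rcases sols_E r hr with h' | ⟨e, he, hei⟩
  · exact hne h'
  · have : ∀ e ∈ E, ∃ i < 28, e.1.testBit i = true := by decide +kernel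
    obtain ⟨i, hi, hie⟩ := this e he
    obtain ⟨h1, h2⟩ := (hei i (by omega)).1 hie
    rw [← mem_des (by omega : i < 35), ← h, mem_des (by omega : i < 35), h1] at h2
    exact absurd h2 (by decide)

theorem good_of_minDefining {S : Finset (Finset (Fin 7))}
    (hS : IsMinDefining 2 7 3 4 (des M) S) : Good (idx S) := by
  obtain ⟨⟨hSD, hdef⟩, hmin⟩ := hS
  have hS3 : ∀ b ∈ S, b.card = 3 := fun b hb => (des_isDesign M_mem).1 b (hSD hb)
  refine ⟨?_, ?_⟩
  · intro e he
    obtain ⟨r, hr, hne, hre⟩ := E_sols e he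
    by_contra hcon
    push Not at hcon
    apply des_ne hr hne
    apply hdef _ (des_isDesign hr)
    apply subset_des hS3
    intro i hi
    have h1 := hcon i hi
    rw [mem_idx] at hi
    by_contra h2
    rw [Bool.not_eq_false] at h2
    exact h1 ((hre i hi.1).2 ⟨h2, (mem_des hi.1).1 (hSD hi.2)⟩)
  · intro x hx
    rw [mem_idx] at hx
    have hlt := hmin (S.erase (tr x)) (erase_ssubset hx.2)
    have : ∃ B', IsDesign 2 7 3 4 B' ∧ S.erase (tr x) ⊆ B' ∧ B' ≠ des M := by
      by_contra hcon
      push Not at hcon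
      exact hlt ⟨(erase_subset _ _).trans hSD, hcon⟩
    obtain ⟨B', hB', hsub, hneB⟩ := this
    obtain ⟨r, hr, rfl⟩ := eq_des_of_design hB'
    rcases sols_E r hr with rfl | ⟨e, he, hei⟩
    · exact absurd rfl hneB
    · refine ⟨e, he, ?_, ?_⟩
      · rw [hei x hx.1]
        refine ⟨?_, (mem_des hx.1).1 (hSD hx.2)⟩
        by_contra h
        rw [Bool.not_eq_true] at h
        apply hneB
        apply hdef _ hB'
        intro b hb
        by_cases hbx : b = tr x
        · subst hbx; exact (mem_des hx.1).2 h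
        · exact hsub (mem_erase.2 ⟨hbx, hb⟩)
      · intro j hj hje
        rw [mem_idx] at hj
        obtain ⟨h1, -⟩ := (hei j hj.1).1 hje
        by_contra hjx
        have hne : tr j ≠ tr x := fun h => hjx (tr_inj j hj.1 x hx.1 h)
        have := hsub (mem_erase.2 ⟨hne, hj.2⟩)
        rw [mem_des hj.1, h1] at this
        exact absurd this (by decide)

theorem minDefining_of_list {l : List ℕ} (hl : l.Nodup) (h28 : ∀ i ∈ l, i < 28)
    (h1 : ∀ e ∈ E, ∃ i ∈ l, e.1.testBit i = true)
    (h2 : ∀ i ∈ l, ∃ e ∈ E, ∀ j ∈ l, e.1.testBit j = true → j = i) :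
    l.length ∈ Spec 2 7 3 4 (des M) := by
  have hMlow : ∀ i < 28, M.testBit i = false := by decide +kernel
  refine ⟨(l.toFinset).image tr, ⟨⟨?_, ?_⟩, ?_⟩, ?_⟩
  · intro b hb
    obtain ⟨i, hi, rfl⟩ := mem_image.1 hb
    rw [List.mem_toFinset] at hi
    have := h28 i hi
    exact (mem_des (by omega)).2 (hMlow i this)
  · intro B' hB' hsub
    obtain ⟨r, hr, rfl⟩ := eq_des_of_design hB'
    rcases sols_E r hr with rfl | ⟨e, he, hei⟩
    · rfl
    · exfalso
      obtain ⟨i, hi, hie⟩ := h1 e he
      have h28i := h28 i hi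
      have := hsub (mem_image_of_mem tr (List.mem_toFinset.2 hi))
      rw [mem_des (by omega), ((hei i (by omega)).1 hie).1] at this
      exact absurd this (by decide)
  · intro S' hS' hdef
    have hss := hS'.1
    obtain ⟨b, hb, hbS⟩ := exists_of_ssubset hS'
    obtain ⟨i, hi, rfl⟩ := mem_image.1 hb
    rw [List.mem_toFinset] at hi
    obtain ⟨e, he, hej⟩ := h2 i hi
    obtain ⟨r, hr, hne, hre⟩ := E_sols e he
    apply des_ne hr hne
    apply hdef.2 _ (des_isDesign hr)
    intro c hc
    obtain ⟨j, hj, rfl⟩ := mem_image.1 (hss hc)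
    rw [List.mem_toFinset] at hj
    have h28j := h28 j hj
    rw [mem_des (by omega)]
    by_contra h
    rw [Bool.not_eq_false] at h
    have := hej j hj ((hre j (by omega)).2 ⟨h, hMlow j h28j⟩)
    subst this
    exact hbS hc
  · rw [card_image_of_injOn, List.toFinset_card_of_nodup hl]
    intro i hi j hj h
    rw [mem_coe, List.mem_toFinset] at hi hj
    have := h28 i hi
    have := h28 j hj
    exact tr_inj i (by omega) j (by omega) h

theorem ten_mem : 10 ∈ Spec 2 7 3 4 (des M) :=
  minDefining_of_list (l := [2, 3, 6, 12, 13, 15, 18, 19, 23, 24]) (by decide +kernel)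
    (by decide +kernel) (by decide +kernel) (by decide +kernel)

theorem thirteen_mem : 13 ∈ Spec 2 7 3 4 (des M) :=
  minDefining_of_list (l := [2, 4, 5, 6, 7, 8, 14, 17, 18, 20, 22, 23, 26]) (by decide +kernel)
    (by decide +kernel) (by decide +kernel) (by decide +kernel)

theorem twelve_notMem : 12 ∉ Spec 2 7 3 4 (des M) := by
  rintro ⟨S, hS, hc⟩
  apply no_twelve (idx S) (good_of_minDefining hS)
  rw [card_idx, hc]
  intro b hb
  exact (des_isDesign M_mem).1 b (hS.1.1 hb)

/-- There is a `2-(7,3,4)` design `D` whose spectrum has a hole: `10` and `13` are sizes of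
minimal defining sets of `D`, but `12` is not. -/
theorem result : ∃ D : Finset (Finset (Fin 7)), IsDesign 2 7 3 4 D ∧
    10 ∈ Spec 2 7 3 4 D ∧ 12 ∉ Spec 2 7 3 4 D ∧ 13 ∈ Spec 2 7 3 4 D :=
  ⟨des M, des_isDesign M_mem, ten_mem, twelve_notMem, thirteen_mem⟩

end Pool.Agent.Results.MP_13ec72_co.SpectrumHole
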